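import Pool.Agent.H268R2.LB.NW

/-! Reduced walks and distances in graphs without short cycles. -/

set_option autoImplicit false

open Finset

namespace Pool.Agent.Q266.GD

open Pool.Agent.H268R2.LB

variable {V W : Type*} {G : SimpleGraph V} {H : SimpleGraph W}

/-- All closed nonbacktracking walks have more than `M` steps. -/
def NC (H : SimpleGraph W) (M : ℕ) : Prop :=
  ∀ (n : ℕ) (a b c : W), NW H n a b c a → M < n

theorem nc_of_girth {M : ℕ} (hg : ∀ (v : W) (p : H.Walk v v), p.IsCycle → M < p.length) :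
    NC H M := by
  intro n a b c h
  by_contra hn
  exact no_closed hg h (not_lt.1 hn)

theorem nw_last_eq {M m n : ℕ} {a b b' c c' d : W} (hM : NC H M) (h1 : NW H m a b c d)
    (h2 : NW H n a b' c' d) (h : m + n ≤ M) : c = c' := by
  by_contra hne
  have := hM _ _ _ _ (NW.append h1 h2.rev hne)
  omega

theorem nw_first_eq {M m n : ℕ} {a b b' c c' d : W} (hM : NC H M) (h1 : NW H m a b c d)
    (h2 : NW H n a b' c' d) (h : m + n ≤ M) : b = b' :=
  nw_last_eq hM h1.rev h2.rev h

theorem nw_len_eq {M : ℕ} (hM : NC H M) {m : ℕ} {a b c d : W} (h1 : NW H m a b c d) :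
    ∀ {n : ℕ} {b' c' : W}, NW H n a b' c' d → m + n ≤ M → m = n := by
  induction h1 with
  | @one a b hab =>
    intro n b' c' h2 hle
    have hc := nw_last_eq hM (NW.one hab) h2 hle
    subst hc
    cases h2 with
    | one _ => rfl
    | step h' _ _ =>
      have := hM _ _ _ _ h'
      omega
  | @step m a b c d e h1 hadj hne ih =>
    intro n b' c' h2 hle
    have hc := nw_last_eq hM (NW.step h1 hadj hne) h2 hle
    subst hc
    cases h2 with
    | one _ =>
      have := hM _ _ _ _ h1
      omega
    | step h' _ _ =>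
      have := ih h' (by omega)
      omega

theorem path_nw {a d : W} (p : H.Walk a d) :
    p.IsPath → 1 ≤ p.length → ∃ c, NW H p.length a p.snd c d := by
  induction p with
  | nil =>
    intro _ h
    simp at h
  | @cons a b d hab p ih =>
    intro hp _
    rw [SimpleGraph.Walk.cons_isPath_iff] at hp
    rcases Nat.eq_zero_or_pos p.length with h0 | hpos
    · cases p with
      | nil =>
        refine ⟨a, ?_⟩
        simpa using NW.one hab
      | cons _ _ => simp at h0
    · obtain ⟨c, hc⟩ := ih hp.1 hpos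
      have hne : a ≠ p.snd := by
        intro he
        exact hp.2 (he ▸ p.getVert_mem_support 1)
      have := NW.append (NW.one hab) hc hne
      refine ⟨c, ?_⟩
      rw [SimpleGraph.Walk.length_cons, SimpleGraph.Walk.snd_cons, add_comm]
      exact this

theorem nw_walk {n : ℕ} {a b c d : W} (h : NW H n a b c d) : ∃ p : H.Walk a d, p.length = n := by
  induction h with
  | one h => exact ⟨SimpleGraph.Walk.cons h SimpleGraph.Walk.nil, by simp⟩
  | step _ hadj _ ih =>
    obtain ⟨p, hp⟩ := ih
    exact ⟨p.concat hadj, by simp [hp]⟩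

theorem geod {a d : W} (hr : H.Reachable a d) (hne : a ≠ d) :
    ∃ b c, NW H (H.dist a d) a b c d := by
  obtain ⟨q, hq⟩ := hr.exists_walk_length_eq_dist
  have hp := q.isPath_of_length_eq_dist hq
  have hpos : 1 ≤ q.length := by
    rw [hq]
    exact hr.pos_dist_of_ne hne
  obtain ⟨c, hc⟩ := path_nw q hp hpos
  exact ⟨_, c, hq ▸ hc⟩

theorem nw_dist {M n : ℕ} {a b c d : W} (hM : NC H M) (h : NW H n a b c d) (hn : 2 * n ≤ M) :
    H.dist a d = n := by
  obtain ⟨p, hp⟩ := nw_walk h
  have h1 : H.dist a d ≤ n := hp ▸ H.dist_le p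
  have hne : a ≠ d := by
    rintro rfl
    have := hM _ _ _ _ h
    omega
  obtain ⟨b', c', h'⟩ := geod p.reachable hne
  exact nw_len_eq hM h' h (by omega)

theorem nw_first {M m : ℕ} {a b c d x : W} (hM : NC H M) (h : NW H m a b c d) (hm : 2 * m ≤ M)
    (hx : H.Adj a x) (hd : H.dist x d + 1 = m) : x = b := by
  obtain ⟨p, hp⟩ := nw_walk h
  have hr : H.Reachable x d := hx.reachable.symm.trans p.reachable
  obtain ⟨q, hq⟩ := hr.exists_walk_length_eq_dist
  have hl : (SimpleGraph.Walk.cons hx q).length = H.dist a d := by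
    rw [SimpleGraph.Walk.length_cons, hq, nw_dist hM h hm, hd]
  have hpth := (SimpleGraph.Walk.cons hx q).isPath_of_length_eq_dist hl
  obtain ⟨c', hc'⟩ := path_nw (SimpleGraph.Walk.cons hx q) hpth (by simp)
  rw [SimpleGraph.Walk.snd_cons, hl, nw_dist hM h hm] at hc'
  exact nw_first_eq hM hc' h (by omega)

theorem nw_last {M m : ℕ} {a b c d x : W} (hM : NC H M) (h : NW H m a b c d) (hm : 2 * m ≤ M)
    (hx : H.Adj d x) (hd : H.dist a x + 1 = m) : x = c :=
  nw_first hM h.rev hm hx (by rw [SimpleGraph.dist_comm]; exact hd)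

end Pool.Agent.Q266.GD
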