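import Pool.Agent.Q266.GD.Basic

/-! Two immersions into a graph without short cycles: the distance between the two images. -/

set_option autoImplicit false

open Finset

namespace Pool.Agent.Q266.GD

open Pool.Agent.H268R2.LB

variable {V W : Type*} {G : SimpleGraph V} {H : SimpleGraph W} {f h : V → W}

/-- A homomorphism which is injective on the neighbourhood of each vertex. -/
structure Imm (G : SimpleGraph V) (H : SimpleGraph W) (f : V → W) : Prop where
  hom : ∀ u v, G.Adj u v → H.Adj (f u) (f v)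
  inj : ∀ v u u', G.Adj v u → G.Adj v u' → f u = f u' → u = u'

theorem child_nw (hf : Imm G H f) (hh : Imm G H h) {d : ℕ} {v u : V} {b c : W}
    (hw : NW H d (f v) b c (h v)) (huv : G.Adj v u) (h1 : f u ≠ b) (h2 : h u ≠ c) :
    NW H (d + 2) (f u) (f v) (h v) (h u) := by
  have h3 := NW.append (NW.one (hf.hom u v huv.symm)) hw h1
  have h4 := NW.step h3 (hh.hom v u huv) h2.symm
  have e : 1 + d + 1 = d + 2 := by ring
  rwa [e] at h4

theorem zero_nw (hf : Imm G H f) (hh : Imm G H h) {v u : V} (h0 : f v = h v) (huv : G.Adj v u)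
    (hne : f u ≠ h u) : NW H 2 (f u) (f v) (f v) (h u) := by
  refine NW.step (NW.one (hf.hom u v huv.symm)) ?_ hne
  rw [h0]
  exact hh.hom v u huv

theorem par_first {M m : ℕ} (hM : NC H M) (hc : H.Connected) (hf : Imm G H f) (hh : Imm G H h)
    {v u : V} {b c : W} (hw : NW H m (f u) b c (h u)) (huv : G.Adj u v)
    (hd : H.dist (f v) (h v) + 2 = m) (hm : 2 * m ≤ M) : f v = b ∧ h v = c := by
  have hm' := nw_dist hM hw hm
  have a1 : H.dist (h v) (h u) = 1 := SimpleGraph.dist_eq_one_iff_adj.2 (hh.hom v u huv.symm)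
  have a2 : H.dist (f u) (f v) = 1 := SimpleGraph.dist_eq_one_iff_adj.2 (hf.hom u v huv)
  have t1 : H.dist (f v) (h u) ≤ H.dist (f v) (h v) + H.dist (h v) (h u) := hc.dist_triangle
  have t2 : H.dist (f u) (h u) ≤ H.dist (f u) (f v) + H.dist (f v) (h u) := hc.dist_triangle
  have t3 : H.dist (f u) (h v) ≤ H.dist (f u) (f v) + H.dist (f v) (h v) := hc.dist_triangle
  have t4 : H.dist (f u) (h u) ≤ H.dist (f u) (h v) + H.dist (h v) (h u) := hc.dist_triangle
  constructor
  · exact nw_first hM hw hm (hf.hom u v huv) (by omega)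
  · exact nw_last hM hw hm (hh.hom u v huv) (by omega)

variable [Fintype V]

/-- the neighbours of a vertex -/
noncomputable def nb (G : SimpleGraph V) (v : V) : Finset V := by
  classical exact univ.filter (fun u => G.Adj v u)

theorem mem_nb {v u : V} : u ∈ nb G v ↔ G.Adj v u := by
  classical
  simp [nb]

theorem ncard_nb (v : V) : (G.neighborSet v).ncard = (nb G v).card := by
  rw [← Set.ncard_coe_finset]
  congr 1
  ext u
  simp [mem_nb]

/-- the vertices at which the images have distance `d` -/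
noncomputable def Lv (H : SimpleGraph W) (f h : V → W) (d : ℕ) : Finset V := by
  classical exact univ.filter (fun v => H.dist (f v) (h v) = d)

theorem mem_Lv {d : ℕ} {v : V} : v ∈ Lv H f h d ↔ H.dist (f v) (h v) = d := by
  classical
  simp [Lv]

/-- the vertices at which the images have distance `e`, with a neighbour at which the distance
is `e - 2` -/
noncomputable def Mp (G : SimpleGraph V) (H : SimpleGraph W) (f h : V → W) (e : ℕ) : Finset V := by
  classical exact univ.filter (fun u => H.dist (f u) (h u) = e ∧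
    ∃ v, G.Adj v u ∧ H.dist (f v) (h v) + 2 = e)

theorem mem_Mp {e : ℕ} {u : V} : u ∈ Mp G H f h e ↔ H.dist (f u) (h u) = e ∧
    ∃ v, G.Adj v u ∧ H.dist (f v) (h v) + 2 = e := by
  classical
  simp [Mp]

omit [Fintype V] in
/-- Double counting with unique parents. -/
theorem count_le {s t : Finset V} {k : ℕ} (r : V → V → Prop)
    (h1 : ∀ a ∈ s, ∃ C : Finset V, k ≤ C.card ∧ ∀ b ∈ C, b ∈ t ∧ r a b)
    (h2 : ∀ a ∈ s, ∀ a' ∈ s, ∀ b ∈ t, r a b → r a' b → a = a') : k * s.card ≤ t.card := by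
  classical
  have := Finset.card_mul_le_card_mul (s := s) (t := t) (m := k) (n := 1) r
    (fun a ha => by
      obtain ⟨C, hC, hC'⟩ := h1 a ha
      refine hC.trans (card_le_card fun b hb => ?_)
      rw [mem_bipartiteAbove]
      exact hC' b hb)
    (fun b hb => by
      rw [card_le_one]
      intro a ha a' ha'
      rw [mem_bipartiteBelow] at ha ha'
      exact h2 a ha.1 a' ha'.1 b hb ha.2 ha'.2)
  linarith [mul_comm k s.card]

theorem exists_children {δ : ℕ} (hδ : ∀ v, δ ≤ (nb G v).card) (hf : Imm G H f) (hh : Imm G H h)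
    (v : V) (b c : W) : ∃ C : Finset V, δ - 2 ≤ C.card ∧
      ∀ u ∈ C, G.Adj v u ∧ f u ≠ b ∧ h u ≠ c := by
  classical
  set A := (nb G v).filter (fun u => f u = b) with hA
  set B := (nb G v).filter (fun u => h u = c) with hB
  have hA1 : A.card ≤ 1 := by
    rw [card_le_one]
    intro u hu u' hu'
    rw [hA, mem_filter, mem_nb] at hu hu'
    exact hf.inj v u u' hu.1 hu'.1 (hu.2.trans hu'.2.symm)
  have hB1 : B.card ≤ 1 := by
    rw [card_le_one]
    intro u hu u' hu'
    rw [hB, mem_filter, mem_nb] at hu hu'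
    exact hh.inj v u u' hu.1 hu'.1 (hu.2.trans hu'.2.symm)
  refine ⟨nb G v \ (A ∪ B), ?_, ?_⟩
  · have h1 := le_card_sdiff (A ∪ B) (nb G v)
    have h2 := card_union_le A B
    have h3 := hδ v
    omega
  · intro u hu
    rw [mem_sdiff, mem_union, hA, hB, mem_filter, mem_filter, mem_nb] at hu
    refine ⟨hu.1, fun h' => hu.2 (Or.inl ⟨hu.1, h'⟩), fun h' => hu.2 (Or.inr ⟨hu.1, h'⟩)⟩

theorem exists_children' {δ : ℕ} (hδ : ∀ v, δ ≤ (nb G v).card) (hf : Imm G H f) (hh : Imm G H h)
    (v u₀ : V) (h0 : G.Adj v u₀) : ∃ C : Finset V, δ - 1 ≤ C.card ∧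
      ∀ u ∈ C, G.Adj v u ∧ f u ≠ f u₀ ∧ h u ≠ h u₀ := by
  classical
  refine ⟨(nb G v).erase u₀, ?_, ?_⟩
  · have h1 := card_erase_of_mem (mem_nb.2 h0 : u₀ ∈ nb G v)
    have h3 := hδ v
    omega
  · intro u hu
    rw [mem_erase, mem_nb] at hu
    exact ⟨hu.2, fun h' => hu.1 (hf.inj v u u₀ hu.2 h0 h'),
      fun h' => hu.1 (hh.inj v u u₀ hu.2 h0 h')⟩

theorem grow1 {M δ d : ℕ} (hM : NC H M) (hc : H.Connected) (hδ : ∀ v, δ ≤ (nb G v).card)
    (hf : Imm G H f) (hh : Imm G H h) (hd : 1 ≤ d) (hdM : 2 * (d + 2) ≤ M) :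
    (δ - 2) * (Lv H f h d).card ≤ (Mp G H f h (d + 2)).card := by
  refine count_le (fun v u => G.Adj v u) ?_ ?_
  · intro v hv
    rw [mem_Lv] at hv
    have hne : f v ≠ h v := by
      intro h'
      rw [h', SimpleGraph.dist_self] at hv
      omega
    obtain ⟨b, c, hw⟩ := geod (hc (f v) (h v)) hne
    rw [hv] at hw
    obtain ⟨C, hC, hC'⟩ := exists_children hδ hf hh v b c
    refine ⟨C, hC, fun u hu => ?_⟩
    obtain ⟨h1, h2, h3⟩ := hC' u hu
    refine ⟨mem_Mp.2 ⟨nw_dist hM (child_nw hf hh hw h1 h2 h3) hdM, v, h1, by omega⟩, h1⟩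
  · intro v hv v' hv' u hu h1 h2
    rw [mem_Lv] at hv hv'
    rw [mem_Mp] at hu
    have hne : f u ≠ h u := by
      intro h'
      rw [h', SimpleGraph.dist_self] at hu
      omega
    obtain ⟨b, c, hw⟩ := geod (hc (f u) (h u)) hne
    rw [hu.1] at hw
    have e1 := par_first hM hc hf hh hw h1.symm (by omega) hdM
    have e2 := par_first hM hc hf hh hw h2.symm (by omega) hdM
    exact hf.inj u v v' h1.symm h2.symm (e1.1.trans e2.1.symm)

theorem grow2 {M δ e : ℕ} (hM : NC H M) (hc : H.Connected) (hδ : ∀ v, δ ≤ (nb G v).card)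
    (hf : Imm G H f) (hh : Imm G H h) (hdM : 2 * (e + 2) ≤ M) :
    (δ - 1) * (Mp G H f h e).card ≤ (Mp G H f h (e + 2)).card := by
  refine count_le (fun v u => G.Adj v u) ?_ ?_
  · intro v hv
    rw [mem_Mp] at hv
    obtain ⟨hv, u₀, hu₀, hu₀'⟩ := hv
    have hne : f v ≠ h v := by
      intro h'
      rw [h', SimpleGraph.dist_self] at hv
      omega
    obtain ⟨b, c, hw⟩ := geod (hc (f v) (h v)) hne
    rw [hv] at hw
    obtain ⟨C, hC, hC'⟩ := exists_children' hδ hf hh v u₀ hu₀.symm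
    obtain ⟨e1, e2⟩ := par_first hM hc hf hh hw hu₀.symm (by omega) (by omega)
    refine ⟨C, hC, fun u hu => ?_⟩
    obtain ⟨h1, h2, h3⟩ := hC' u hu
    rw [e1] at h2
    rw [e2] at h3
    refine ⟨mem_Mp.2 ⟨nw_dist hM (child_nw hf hh hw h1 h2 h3) hdM, v, h1, by omega⟩, h1⟩
  · intro v hv v' hv' u hu h1 h2
    rw [mem_Mp] at hv hv' hu
    have hne : f u ≠ h u := by
      intro h'
      rw [h', SimpleGraph.dist_self] at hu
      omega
    obtain ⟨b, c, hw⟩ := geod (hc (f u) (h u)) hne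
    rw [hu.1] at hw
    have e1 := par_first hM hc hf hh hw h1.symm (by omega) hdM
    have e2 := par_first hM hc hf hh hw h2.symm (by omega) hdM
    exact hf.inj u v v' h1.symm h2.symm (e1.1.trans e2.1.symm)

theorem grow {M δ : ℕ} (hM : NC H M) (hc : H.Connected) (hδ : ∀ v, δ ≤ (nb G v).card)
    (hf : Imm G H f) (hh : Imm G H h) (e : ℕ) : ∀ j : ℕ, 2 * (e + 2 * j) ≤ M →
    (δ - 1) ^ j * (Mp G H f h e).card ≤ (Mp G H f h (e + 2 * j)).card := by
  intro j
  induction j with
  | zero => intro _; simp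
  | succ j ih =>
    intro hj
    have h1 := ih (by omega)
    have h2 := grow2 (e := e + 2 * j) hM hc hδ hf hh (by omega)
    have e1 : e + 2 * (j + 1) = e + 2 * j + 2 := by ring
    rw [e1, pow_succ]
    calc (δ - 1) ^ j * (δ - 1) * (Mp G H f h e).card
        = (δ - 1) * ((δ - 1) ^ j * (Mp G H f h e).card) := by ring
      _ ≤ (δ - 1) * (Mp G H f h (e + 2 * j)).card := Nat.mul_le_mul_left _ h1
      _ ≤ _ := h2

theorem grow_Lv {M δ d : ℕ} (hM : NC H M) (hc : H.Connected) (hδ : ∀ v, δ ≤ (nb G v).card)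
    (hf : Imm G H f) (hh : Imm G H h) (hd : 1 ≤ d) (j : ℕ) (hj : 2 * (d + 2 * (j + 1)) ≤ M) :
    (δ - 2) * (δ - 1) ^ j * (Lv H f h d).card ≤ (Mp G H f h (d + 2 * (j + 1))).card := by
  have h1 := grow1 (d := d) hM hc hδ hf hh hd (by omega)
  have h2 := grow hM hc hδ hf hh (d + 2) j (by omega)
  have e1 : d + 2 * (j + 1) = d + 2 + 2 * j := by ring
  rw [e1]
  calc (δ - 2) * (δ - 1) ^ j * (Lv H f h d).card
      = (δ - 1) ^ j * ((δ - 2) * (Lv H f h d).card) := by ring
    _ ≤ (δ - 1) ^ j * (Mp G H f h (d + 2)).card := Nat.mul_le_mul_left _ h1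
    _ ≤ _ := h2

/-- the vertices at which the two maps differ -/
noncomputable def Mv (f h : V → W) : Finset V := by
  classical exact univ.filter (fun v => f v ≠ h v)

theorem mem_Mv {v : V} : v ∈ Mv f h ↔ f v ≠ h v := by
  classical
  simp [Mv]

/-- the vertices at which the two maps differ and have images of distance at most `r` -/
noncomputable def Sv (H : SimpleGraph W) (f h : V → W) (r : ℕ) : Finset V := by
  classical exact univ.filter (fun v => f v ≠ h v ∧ H.dist (f v) (h v) ≤ r)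

theorem mem_Sv {r : ℕ} {v : V} : v ∈ Sv H f h r ↔ f v ≠ h v ∧ H.dist (f v) (h v) ≤ r := by
  classical
  simp [Sv]

theorem item1 {M δ : ℕ} (hM : NC H M) (hc : H.Connected) (hδ : ∀ v, δ ≤ (nb G v).card)
    (hf : Imm G H f) (hh : Imm G H h) (r j : ℕ) (hj : 2 * (r + 2 * (j + 1)) ≤ M) :
    (δ - 2) * (δ - 1) ^ j * (Sv H f h r).card ≤ (Mv f h).card := by
  classical
  have hS : Sv H f h r = (Icc 1 r).biUnion (fun d => Lv H f h d) := by
    ext v
    rw [mem_Sv, mem_biUnion]
    constructor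
    · rintro ⟨h1, h2⟩
      refine ⟨_, mem_Icc.2 ⟨(hc (f v) (h v)).pos_dist_of_ne h1, h2⟩, mem_Lv.2 rfl⟩
    · rintro ⟨d, h1, h2⟩
      rw [mem_Icc] at h1
      rw [mem_Lv] at h2
      refine ⟨fun h' => ?_, by omega⟩
      rw [h', SimpleGraph.dist_self] at h2
      omega
  have h1 : (Sv H f h r).card ≤ ∑ d ∈ Icc 1 r, (Lv H f h d).card := by
    rw [hS]
    exact card_biUnion_le
  have h2 : ∑ d ∈ Icc 1 r, (Mp G H f h (d + 2 * (j + 1))).card ≤ (Mv f h).card := by
    rw [← card_biUnion]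
    · apply card_le_card
      intro v hv
      rw [mem_biUnion] at hv
      obtain ⟨d, hd, hv⟩ := hv
      rw [mem_Mp] at hv
      rw [mem_Icc] at hd
      rw [mem_Mv]
      intro h'
      rw [h', SimpleGraph.dist_self] at hv
      omega
    · intro d _ d' _ hne
      rw [Function.onFun, disjoint_left]
      intro v hv hv'
      rw [mem_Mp] at hv hv'
      omega
  calc (δ - 2) * (δ - 1) ^ j * (Sv H f h r).card
      ≤ (δ - 2) * (δ - 1) ^ j * ∑ d ∈ Icc 1 r, (Lv H f h d).card := Nat.mul_le_mul_left _ h1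
    _ = ∑ d ∈ Icc 1 r, (δ - 2) * (δ - 1) ^ j * (Lv H f h d).card := by rw [mul_sum]
    _ ≤ ∑ d ∈ Icc 1 r, (Mp G H f h (d + 2 * (j + 1))).card := by
        apply sum_le_sum
        intro d hd
        rw [mem_Icc] at hd
        exact grow_Lv hM hc hδ hf hh hd.1 j (by omega)
    _ ≤ _ := h2

theorem item4 {M δ : ℕ} (hM : NC H M) (hc : H.Connected) (hδ : ∀ v, δ ≤ (nb G v).card)
    (h3 : 3 ≤ δ) (hf : Imm G H f) (hh : Imm G H h) (hne : ∃ v, f v ≠ h v) :
    ∃ v, M ≤ 2 * H.dist (f v) (h v) + 1 := by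
  classical
  obtain ⟨v₀, hv₀⟩ := hne
  obtain ⟨v, hv, hmax⟩ := exists_max_image (Mv f h) (fun v => H.dist (f v) (h v))
    ⟨v₀, mem_Mv.2 hv₀⟩
  refine ⟨v, ?_⟩
  rw [mem_Mv] at hv
  by_contra hlt
  push Not at hlt
  obtain ⟨b, c, hw⟩ := geod (hc (f v) (h v)) hv
  obtain ⟨C, hC, hC'⟩ := exists_children hδ hf hh v b c
  obtain ⟨u, hu⟩ := card_pos.1 (show 0 < C.card by omega)
  obtain ⟨h1, h2, h3'⟩ := hC' u hu
  have hw' := child_nw hf hh hw h1 h2 h3'
  have hu' : f u ≠ h u := by
    intro h'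
    rw [h'] at hw'
    have := hM _ _ _ _ hw'
    omega
  have hle := hmax u (mem_Mv.2 hu')
  obtain ⟨b', c', hw''⟩ := geod (hc (f u) (h u)) hu'
  have := nw_len_eq hM hw' hw'' (by omega)
  omega

/-- the pairs of adjacent vertices such that the maps agree at the first and differ at the
second -/
noncomputable def Bd (G : SimpleGraph V) (f h : V → W) : Finset (V × V) := by
  classical exact univ.filter (fun p => G.Adj p.1 p.2 ∧ f p.1 = h p.1 ∧ f p.2 ≠ h p.2)

theorem mem_Bd {p : V × V} : p ∈ Bd G f h ↔ G.Adj p.1 p.2 ∧ f p.1 = h p.1 ∧ f p.2 ≠ h p.2 := by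
  classical
  simp [Bd]

theorem item2 {M δ : ℕ} (hM : NC H M) (hc : H.Connected) (hδ : ∀ v, δ ≤ (nb G v).card)
    (hf : Imm G H f) (hh : Imm G H h) (j : ℕ) (hj : 4 * (j + 1) ≤ M) :
    (δ - 1) ^ j * (Bd G f h).card ≤ (Mv f h).card := by
  classical
  have h1 : (Bd G f h).card ≤ (Mp G H f h 2).card := by
    apply card_le_card_of_injOn (fun p => p.2)
    · intro p hp
      rw [mem_coe, mem_Bd] at hp
      rw [mem_coe, mem_Mp]
      have hw := zero_nw hf hh hp.2.1 hp.1 hp.2.2
      refine ⟨nw_dist hM hw (by omega), p.1, hp.1, ?_⟩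
      rw [hp.2.1, SimpleGraph.dist_self]
    · intro p hp q hq hpq
      rw [mem_coe, mem_Bd] at hp hq
      have hpq' : p.2 = q.2 := hpq
      have hw := zero_nw hf hh hp.2.1 hp.1 hp.2.2
      have hw' := zero_nw hf hh hq.2.1 hq.1 hq.2.2
      rw [← hpq'] at hw'
      have he := nw_first_eq hM hw hw' (by omega)
      refine Prod.ext (hf.inj p.2 p.1 q.1 hp.1.symm ?_ he) hpq'
      rw [hpq']
      exact hq.1.symm
  have h2 := grow hM hc hδ hf hh 2 j (by omega)
  have h3 : (Mp G H f h (2 + 2 * j)).card ≤ (Mv f h).card := by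
    apply card_le_card
    intro v hv
    rw [mem_Mp] at hv
    rw [mem_Mv]
    intro h'
    rw [h', SimpleGraph.dist_self] at hv
    omega
  calc (δ - 1) ^ j * (Bd G f h).card ≤ (δ - 1) ^ j * (Mp G H f h 2).card :=
        Nat.mul_le_mul_left _ h1
    _ ≤ _ := h2
    _ ≤ _ := h3

omit [Fintype V] in
theorem Imm.map (hf : Imm G H f) {n : ℕ} {a b c d : V} (h : NW G n a b c d) :
    NW H n (f a) (f b) (f c) (f d) := by
  induction h with
  | one h => exact NW.one (hf.hom _ _ h)
  | step h1 hadj hne ih =>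
    exact NW.step ih (hf.hom _ _ hadj) (fun h => hne (hf.inj _ _ _ h1.adj_last.symm hadj h))

omit [Fintype V] in
theorem Imm.nc {M : ℕ} (hf : Imm G H f) (hM : NC H M) : NC G M :=
  fun _ _ _ _ h => hM _ _ _ _ (hf.map h)

/-- the neighbours at which the maps differ -/
noncomputable def Nm (G : SimpleGraph V) (f h : V → W) (v : V) : Finset V := by
  classical exact univ.filter (fun u => G.Adj v u ∧ f u ≠ h u)

theorem mem_Nm {v u : V} : u ∈ Nm G f h v ↔ G.Adj v u ∧ f u ≠ h u := by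
  classical
  simp [Nm]

/-- ends of nonbacktracking walks from `v` with `i` steps whose first step goes to a neighbour at
which the maps differ -/
noncomputable def En (G : SimpleGraph V) (f h : V → W) (v : V) (i : ℕ) : Finset V := by
  classical exact univ.filter (fun w => ∃ u c, u ∈ Nm G f h v ∧ NW G i v u c w)

theorem mem_En {v w : V} {i : ℕ} :
    w ∈ En G f h v i ↔ ∃ u c, u ∈ Nm G f h v ∧ NW G i v u c w := by
  classical
  simp [En]

theorem En_grow {M δ : ℕ} (hM : NC H M) (hδ : ∀ v, δ ≤ (nb G v).card)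
    (hf : Imm G H f) (v : V) (i : ℕ) (hi : 2 * (i + 1) ≤ M) :
    (δ - 1) * (En G f h v i).card ≤ (En G f h v (i + 1)).card := by
  classical
  refine count_le (fun w w' => ∃ u, NW G (i + 1) v u w w') ?_ ?_
  · intro w hw
    rw [mem_En] at hw
    obtain ⟨u, c, hu, hw⟩ := hw
    refine ⟨(nb G w).erase c, ?_, ?_⟩
    · have h1 := card_erase_of_mem (mem_nb.2 hw.adj_last.symm : c ∈ nb G w)
      have h3 := hδ w
      omega
    · intro w' hw'
      rw [mem_erase, mem_nb] at hw'
      have := NW.step hw hw'.2 hw'.1.symm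
      exact ⟨mem_En.2 ⟨u, w, hu, this⟩, u, this⟩
  · rintro w _ w' _ x _ ⟨u, hu⟩ ⟨u', hu'⟩
    exact nw_last_eq (hf.nc hM) hu hu' (by omega)

theorem En_card {M δ : ℕ} (hM : NC H M) (hδ : ∀ v, δ ≤ (nb G v).card)
    (hf : Imm G H f) (v : V) : ∀ i : ℕ, 2 * (i + 1) ≤ M →
    (Nm G f h v).card * (δ - 1) ^ i ≤ (En G f h v (i + 1)).card := by
  intro i
  induction i with
  | zero =>
    intro _
    rw [pow_zero, mul_one]
    apply card_le_card
    intro u hu
    exact mem_En.2 ⟨u, v, hu, NW.one (mem_Nm.1 hu).1⟩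
  | succ i ih =>
    intro hi
    have h1 := ih (by omega)
    have h2 := En_grow (f := f) (h := h) hM hδ hf v (i + 1) (by omega)
    calc (Nm G f h v).card * (δ - 1) ^ (i + 1)
        = (δ - 1) * ((Nm G f h v).card * (δ - 1) ^ i) := by ring
      _ ≤ (δ - 1) * (En G f h v (i + 1)).card := Nat.mul_le_mul_left _ h1
      _ ≤ _ := h2

theorem item3 {M δ : ℕ} (hM : NC H M) (hδ : ∀ v, δ ≤ (nb G v).card)
    (hf : Imm G H f) (hh : Imm G H h) (v : V) (hv : f v = h v) (k : ℕ) (hk : 2 * k ≤ M) :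
    (Nm G f h v).card * ∑ i ∈ range k, (δ - 1) ^ i ≤ (Mv f h).card := by
  classical
  have h2 : ∑ i ∈ range k, (En G f h v (i + 1)).card ≤ (Mv f h).card := by
    rw [← card_biUnion]
    · apply card_le_card
      intro w hw
      rw [mem_biUnion] at hw
      obtain ⟨i, hi, hw⟩ := hw
      rw [mem_range] at hi
      rw [mem_En] at hw
      obtain ⟨u, c, hu, hw⟩ := hw
      rw [mem_Nm] at hu
      rw [mem_Mv]
      intro h'
      have w1 := hf.map hw
      have w2 := hh.map hw
      rw [← hv] at w2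
      have w3 := NW.append w1.rev w2 hu.2
      rw [h'] at w3
      have := hM _ _ _ _ w3
      omega
    · intro i hi i' hi' hne
      rw [mem_coe, mem_range] at hi hi'
      rw [Function.onFun, disjoint_left]
      intro w hw hw'
      rw [mem_En] at hw hw'
      obtain ⟨u, c, _, hw⟩ := hw
      obtain ⟨u', c', _, hw'⟩ := hw'
      have e1 := hf.map hw
      have e2 := hf.map hw'
      have := nw_len_eq hM e1 e2 (by omega)
      omega
  calc (Nm G f h v).card * ∑ i ∈ range k, (δ - 1) ^ i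
      = ∑ i ∈ range k, (Nm G f h v).card * (δ - 1) ^ i := by rw [mul_sum]
    _ ≤ ∑ i ∈ range k, (En G f h v (i + 1)).card := by
        apply sum_le_sum
        intro i hi
        rw [mem_range] at hi
        exact En_card hM hδ hf v i (by omega)
    _ ≤ _ := h2

end Pool.Agent.Q266.GD
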