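import Pool.Agent.Q266.GD.Count

/-! The Moore bound for the set of vertices where two immersions differ. -/

set_option autoImplicit false

open Finset

namespace Pool.Agent.Q266.GD

open Pool.Agent.H268R2.LB

variable {V W : Type*} {G : SimpleGraph V} {H : SimpleGraph W} {f h : V → W} [Fintype V]

/-- ends of nonbacktracking walks from `v` with `i` steps -/
noncomputable def Ew (G : SimpleGraph V) (v : V) (i : ℕ) : Finset V := by
  classical exact univ.filter (fun w => ∃ u c, NW G i v u c w)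

theorem mem_Ew {v w : V} {i : ℕ} : w ∈ Ew G v i ↔ ∃ u c, NW G i v u c w := by
  classical
  simp [Ew]

theorem Ew_grow {M δ : ℕ} (hM : NC G M) (hδ : ∀ w x, G.Adj w x → δ ≤ (nb G w).card)
    (v : V) (i : ℕ) (hi : 2 * (i + 1) ≤ M) :
    (δ - 1) * (Ew G v i).card ≤ (Ew G v (i + 1)).card := by
  classical
  refine count_le (fun w w' => ∃ u, NW G (i + 1) v u w w') ?_ ?_
  · intro w hw
    rw [mem_Ew] at hw
    obtain ⟨u, c, hw⟩ := hw
    refine ⟨(nb G w).erase c, ?_, ?_⟩
    · have h1 := card_erase_of_mem (mem_nb.2 hw.adj_last.symm : c ∈ nb G w)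
      have h3 := hδ w c hw.adj_last.symm
      omega
    · intro w' hw'
      rw [mem_erase, mem_nb] at hw'
      have := NW.step hw hw'.2 hw'.1.symm
      exact ⟨mem_Ew.2 ⟨u, w, this⟩, u, this⟩
  · rintro w _ w' _ x _ ⟨u, hu⟩ ⟨u', hu'⟩
    exact nw_last_eq hM hu hu' (by omega)

theorem Ew_card {M δ : ℕ} (hM : NC G M) (hδ : ∀ w x, G.Adj w x → δ ≤ (nb G w).card)
    (v : V) (hv : ∃ x, G.Adj v x) : ∀ i : ℕ, 2 * (i + 1) ≤ M →
    δ * (δ - 1) ^ i ≤ (Ew G v (i + 1)).card := by
  intro i
  induction i with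
  | zero =>
    intro _
    rw [pow_zero, mul_one]
    obtain ⟨x, hx⟩ := hv
    refine (hδ v x hx).trans (card_le_card ?_)
    intro u hu
    exact mem_Ew.2 ⟨u, v, NW.one (mem_nb.1 hu)⟩
  | succ i ih =>
    intro hi
    have h1 := ih (by omega)
    have h2 := Ew_grow hM hδ v (i + 1) (by omega)
    calc δ * (δ - 1) ^ (i + 1)
        = (δ - 1) * (δ * (δ - 1) ^ i) := by ring
      _ ≤ (δ - 1) * (Ew G v (i + 1)).card := Nat.mul_le_mul_left _ h1
      _ ≤ _ := h2

/-- The Moore bound for the vertices that are not isolated. -/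
theorem moore {M δ : ℕ} (hM : NC G M) (hδ : ∀ w x, G.Adj w x → δ ≤ (nb G w).card)
    (B : Finset V) (hB : ∀ w x, G.Adj w x → w ∈ B) (v : V) (hv : ∃ x, G.Adj v x)
    (k : ℕ) (hk : 2 * k ≤ M) : 1 + δ * ∑ i ∈ range k, (δ - 1) ^ i ≤ B.card := by
  classical
  have hvB : v ∈ B := by
    obtain ⟨x, hx⟩ := hv
    exact hB v x hx
  have h2 : ∑ i ∈ range k, (Ew G v (i + 1)).card ≤ (B.erase v).card := by
    rw [← card_biUnion]
    · apply card_le_card
      intro w hw
      rw [mem_biUnion] at hw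
      obtain ⟨i, hi, hw⟩ := hw
      rw [mem_range] at hi
      rw [mem_Ew] at hw
      obtain ⟨u, c, hw⟩ := hw
      rw [mem_erase]
      refine ⟨?_, hB w c hw.adj_last.symm⟩
      rintro rfl
      have := hM _ _ _ _ hw
      omega
    · intro i hi i' hi' hne
      rw [mem_coe, mem_range] at hi hi'
      rw [Function.onFun, disjoint_left]
      intro w hw hw'
      rw [mem_Ew] at hw hw'
      obtain ⟨u, c, hw⟩ := hw
      obtain ⟨u', c', hw'⟩ := hw'
      have := nw_len_eq hM hw hw' (by omega)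
      omega
  have h3 : δ * ∑ i ∈ range k, (δ - 1) ^ i ≤ ∑ i ∈ range k, (Ew G v (i + 1)).card := by
    rw [mul_sum]
    apply sum_le_sum
    intro i hi
    rw [mem_range] at hi
    exact Ew_card hM hδ v hv i (by omega)
  have h4 := card_erase_of_mem hvB
  have h5 : 0 < B.card := card_pos.2 ⟨v, hvB⟩
  omega

/-- the edges between vertices of `B` -/
def Rs (G : SimpleGraph V) (B : Finset V) : SimpleGraph V where
  Adj u v := G.Adj u v ∧ u ∈ B ∧ v ∈ B
  symm := ⟨fun _ _ h => ⟨h.1.symm, h.2.2, h.2.1⟩⟩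
  loopless := ⟨fun _ h => G.loopless.irrefl _ h.1⟩

/-- Two different immersions in a graph without short cycles differ at many vertices. -/
theorem item6 {M δ : ℕ} (hM : NC H M) (h4 : 4 ≤ M) (hδ : ∀ v, δ ≤ (nb G v).card) (h3 : 3 ≤ δ)
    (hf : Imm G H f) (hh : Imm G H h) (hne : ∃ v, f v ≠ h v) (k : ℕ) (hk : 2 * k ≤ M) :
    1 + (δ - 1) * ∑ i ∈ range k, (δ - 2) ^ i ≤ (Mv f h).card := by
  classical
  -- a vertex at which the maps differ has at most one neighbour at which they agree
  have key : ∀ v ∈ Mv f h, δ - 1 ≤ (nb (Rs G (Mv f h)) v).card := by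
    intro v hv
    have hv' := mem_Mv.1 hv
    have h1 : ((nb G v).filter (fun u => f u = h u)).card ≤ 1 := by
      rw [card_le_one]
      intro u hu u' hu'
      rw [mem_filter, mem_nb] at hu hu'
      by_contra hne'
      have e1 : f u ≠ f u' := fun e => hne' (hf.inj v u u' hu.1 hu'.1 e)
      -- the closed walk `f v, f u, h v, f u', f v`
      have w1 : NW H 2 (f v) (f u) (f u) (h v) :=
        NW.step (NW.one (hf.hom v u hu.1)) (by
          have := (hh.hom v u hu.1).symm
          rwa [← hu.2] at this) hv'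
      have w2 : NW H 2 (h v) (f u') (f u') (f v) :=
        NW.step (NW.one (by
          have := hh.hom v u' hu'.1
          rwa [← hu'.2] at this)) (hf.hom v u' hu'.1).symm hv'.symm
      have := hM _ _ _ _ (NW.append w1 w2 e1)
      omega
    have h2 : nb G v \ ((nb G v).filter (fun u => f u = h u)) ⊆ nb (Rs G (Mv f h)) v := by
      intro u hu
      rw [mem_sdiff, mem_filter] at hu
      rw [mem_nb]
      have h5 : f u ≠ h u := fun e => hu.2 ⟨hu.1, e⟩
      exact ⟨mem_nb.1 hu.1, hv, mem_Mv.2 h5⟩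
    have h6 := card_le_card h2
    have h7 := le_card_sdiff ((nb G v).filter (fun u => f u = h u)) (nb G v)
    have h8 := hδ v
    omega
  obtain ⟨v, hv⟩ := hne
  have hv' : v ∈ Mv f h := mem_Mv.2 hv
  have hG : NC G M := hf.nc hM
  have hR : NC (Rs G (Mv f h)) M :=
    Imm.nc (f := fun v => v) ⟨fun u v h => h.1, fun _ _ _ _ _ h => h⟩ hG
  have hx : ∃ x, (Rs G (Mv f h)).Adj v x := by
    have h1 := key v hv'
    obtain ⟨x, hx⟩ := card_pos.1 (show 0 < (nb (Rs G (Mv f h)) v).card by omega)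
    exact ⟨x, mem_nb.1 hx⟩
  have := moore hR (fun w x hwx => key w hwx.2.1) (Mv f h) (fun w x hwx => hwx.2.1) v hx k hk
  have e : δ - 1 - 1 = δ - 2 := by omega
  rw [e] at this
  exact this

end Pool.Agent.Q266.GD
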